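import Pool.Agent.Q320.EqTest.Example

/-!
# A non-Hamiltonian graph on which testing equality costs `k/2` bits per bit of input
-/

namespace Pool.Agent.Results.MP_76d60e_lc.NonHamiltonian

open Filter Topology Pool.Agent.Q320.EqTest Pool.Agent.Q320.EqTest.Example

/-- **A connected non-Hamiltonian graph with `f(G) = k/2`.** -/
theorem result : ∃ G : SimpleGraph (Fin 9), G.Connected ∧ ¬ G.IsHamiltonian ∧
    (∀ n : ℕ, ∃ P : Fin 9 → (Fin n → Bool) → Prog (Fin 9), Decides G n P (cost G n)) ∧
    Tendsto (fun n : ℕ => (cost G n : ℝ) / n) atTop (𝓝 (9 / 2)) := by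
  refine ⟨G9, connected, not_hamiltonian, cost_spec connected, ?_⟩
  have h := main connected
  rwa [fc_eq] at h

end Pool.Agent.Results.MP_76d60e_lc.NonHamiltonian
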